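import Pool.Agent.W861.AM.Tower
import Mathlib.Order.Filter.Germ.Basic
import Mathlib.Algebra.Group.Action.End
import Mathlib.Data.Real.Basic

set_option autoImplicit false

/-!
# The direct limit
-/

namespace Pool.Agent.W861.AM

open Filter

/-- Sequences that are eventually coherent. -/
def Coh (x : ℕ → ℚ) (N : ℕ) : Prop := ∀ n, N ≤ n → x (n + 1) = eps (x n)

theorem Coh.iter {x : ℕ → ℚ} {N : ℕ} (h : Coh x N) (k : ℕ) : x (N + k) = eps^[k] (x N) := by
  induction k with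
  | zero => rfl
  | succ k ih => rw [← Nat.add_assoc, h _ (by omega), ih, Function.iterate_succ_apply']

theorem Coh.mono {x : ℕ → ℚ} {N M : ℕ} (h : Coh x N) (hM : N ≤ M) : Coh x M :=
  fun n hn => h n (hM.trans hn)

/-- The limit ordered set. -/
def XX : Type := {ξ : Germ (atTop : Filter ℕ) ℚ // ∃ (x : ℕ → ℚ) (N : ℕ), ξ = ↑x ∧ Coh x N}

instance : PartialOrder XX := Subtype.partialOrder _

theorem XX_le (ξ η : XX) : ξ ≤ η ↔ ξ.1 ≤ η.1 := Iff.rfl

theorem coh_le {x y : ℕ → ℚ} {N : ℕ} (hx : Coh x N) (hy : Coh y N) (h : x N ≤ y N) :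
    (x : Germ (atTop : Filter ℕ) ℚ) ≤ y := by
  rw [Germ.coe_le]
  refine (eventually_ge_atTop N).mono (fun n hn => ?_)
  obtain ⟨k, rfl⟩ := Nat.exists_eq_add_of_le hn
  rw [hx.iter, hy.iter]
  exact (eps_strictMono.iterate k).monotone h

theorem XX_total (ξ η : XX) : ξ ≤ η ∨ η ≤ ξ := by
  obtain ⟨ξ, x, N, rfl, hx⟩ := ξ
  obtain ⟨η, y, M, rfl, hy⟩ := η
  have hx' := hx.mono (le_max_left N M)
  have hy' := hy.mono (le_max_right N M)
  rcases le_total (x (max N M)) (y (max N M)) with h | h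
  · exact Or.inl (coh_le hx' hy' h)
  · exact Or.inr (coh_le hy' hx' h)

noncomputable instance : LinearOrder XX :=
  { (inferInstance : PartialOrder XX) with
    le_total := XX_total
    toDecidableLE := Classical.decRel _ }

theorem iterate_Phi_mul (k : ℕ) (g h : Equiv.Perm ℚ) :
    Phi^[k] (g * h) = Phi^[k] g * Phi^[k] h := by
  induction k with
  | zero => rfl
  | succ k ih => rw [Function.iterate_succ_apply', ih, map_mul, Function.iterate_succ_apply',
      Function.iterate_succ_apply']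

theorem iterate_Phi_one (k : ℕ) : Phi^[k] 1 = 1 := by
  induction k with
  | zero => rfl
  | succ k ih => rw [Function.iterate_succ_apply', ih, map_one]

/-- The homomorphism of the `N`-th stage to the limit. -/
noncomputable def del (N : ℕ) : Equiv.Perm ℚ →* Germ (atTop : Filter ℕ) (Equiv.Perm ℚ) where
  toFun g := ((fun n => Phi^[n - N] g : ℕ → Equiv.Perm ℚ) : Germ (atTop : Filter ℕ) (Equiv.Perm ℚ))
  map_one' := by
    simp only [iterate_Phi_one]
    rfl
  map_mul' g h := by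
    simp only [iterate_Phi_mul]
    rfl

theorem del_succ (N : ℕ) (g : Equiv.Perm ℚ) : del (N + 1) (Phi g) = del N g := by
  show ((fun n => Phi^[n - (N + 1)] (Phi g) : ℕ → Equiv.Perm ℚ) :
      Germ (atTop : Filter ℕ) (Equiv.Perm ℚ)) = ((fun n => Phi^[n - N] g : ℕ → Equiv.Perm ℚ) : _)
  rw [Germ.coe_eq]
  refine (eventually_ge_atTop (N + 1)).mono (fun n hn => ?_)
  show Phi^[n - (N + 1)] (Phi g) = Phi^[n - N] g
  have : n - N = (n - (N + 1)) + 1 := by omega
  rw [this, Function.iterate_succ_apply]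

/-- The stages inside the limit. -/
noncomputable def KK (N : ℕ) : Subgroup (Germ (atTop : Filter ℕ) (Equiv.Perm ℚ)) :=
  (GG N).map (del N)

theorem KK_mono : Monotone KK := by
  refine monotone_nat_of_le_succ (fun N => ?_)
  rintro _ ⟨g, hg, rfl⟩
  exact ⟨Phi g, Phi_GG hg, del_succ N g⟩

/-- The limit group. -/
noncomputable def GI : Subgroup (Germ (atTop : Filter ℕ) (Equiv.Perm ℚ)) := ⨆ N, KK N

theorem mem_GI {γ : Germ (atTop : Filter ℕ) (Equiv.Perm ℚ)} : γ ∈ GI ↔ ∃ N, γ ∈ KK N :=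
  Subgroup.mem_iSup_of_directed KK_mono.directed_le

theorem GI_am : Am GI := by
  refine Am.of_directed (fun N : ℕ => (KK N).subgroupOf GI) ?_ ?_ ?_
  · intro N M h x hx
    exact KK_mono h hx
  · rintro ⟨γ, hγ⟩
    obtain ⟨N, hN⟩ := mem_GI.1 hγ
    exact ⟨N, hN⟩
  · intro N
    have h1 : Am (KK N) := Am.map _ (GG_am N) _
    exact h1.of_surjective (Subgroup.subgroupOfEquivOfLe (le_iSup KK N)).symm.toMonoidHom
      (Subgroup.subgroupOfEquivOfLe (le_iSup KK N)).symm.surjective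

theorem iterate_Phi_GG {N : ℕ} {g : Equiv.Perm ℚ} (hg : g ∈ GG N) (k : ℕ) :
    Phi^[k] g ∈ GG (N + k) := by
  induction k with
  | zero => exact hg
  | succ k ih => rw [Function.iterate_succ_apply']; exact Phi_GG ih

theorem coh_smul {x : ℕ → ℚ} {M N : ℕ} (hx : Coh x M) (g : Equiv.Perm ℚ) :
    Coh (fun n => Phi^[n - N] g (x n)) (max M N) := by
  intro n hn
  have h1 : M ≤ n := (le_max_left _ _).trans hn
  have h2 : N ≤ n := (le_max_right _ _).trans hn
  show Phi^[n + 1 - N] g (x (n + 1)) = eps (Phi^[n - N] g (x n))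
  rw [hx n h1, Nat.succ_sub h2, Function.iterate_succ_apply', Phi_eps]

theorem smul_mem (γ : GI) (ξ : XX) : ∃ (x : ℕ → ℚ) (N : ℕ), γ.1 • ξ.1 = ↑x ∧ Coh x N := by
  obtain ⟨γ, hγ⟩ := γ
  obtain ⟨N, g, hg, rfl⟩ := mem_GI.1 hγ
  obtain ⟨ξ, x, M, rfl, hx⟩ := ξ
  exact ⟨fun n => Phi^[n - N] g (x n), max M N, rfl, coh_smul hx g⟩

noncomputable instance : MulAction GI XX where
  smul γ ξ := ⟨γ.1 • ξ.1, smul_mem γ ξ⟩
  one_smul ξ := Subtype.ext (one_smul _ ξ.1)
  mul_smul a b ξ := Subtype.ext (mul_smul a.1 b.1 ξ.1)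

theorem smul_val (γ : GI) (ξ : XX) : (γ • ξ).1 = γ.1 • ξ.1 := rfl

theorem act_mono (γ : GI) : Monotone (fun ξ : XX => γ • ξ) := by
  intro ξ η h
  obtain ⟨γ, hγ⟩ := γ
  obtain ⟨N, g, hg, rfl⟩ := mem_GI.1 hγ
  obtain ⟨ξ, x, M, rfl, hx⟩ := ξ
  obtain ⟨η, y, L, rfl, hy⟩ := η
  have h' : ∀ᶠ n in (atTop : Filter ℕ), x n ≤ y n := Germ.coe_le.1 h
  refine Germ.coe_le.2 ?_
  filter_upwards [h', eventually_ge_atTop N] with n hn hN
  obtain ⟨k, rfl⟩ := Nat.exists_eq_add_of_le hN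
  show Phi^[N + k - N] g (x (N + k)) ≤ Phi^[N + k - N] g (y (N + k))
  rw [Nat.add_sub_cancel_left]
  exact (show StrictMono _ from GG_le _ (iterate_Phi_GG hg k)).monotone hn

theorem coh_pt (N : ℕ) (q : ℚ) : Coh (fun n => eps^[n - N] q) N := by
  intro n hn
  show eps^[n + 1 - N] q = eps (eps^[n - N] q)
  rw [Nat.succ_sub hn, Function.iterate_succ_apply']

/-- The constant tower of a point. -/
noncomputable def pt (N : ℕ) (q : ℚ) : XX :=
  ⟨((fun n => eps^[n - N] q : ℕ → ℚ) : Germ (atTop : Filter ℕ) ℚ), _, N, rfl, coh_pt N q⟩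

theorem exists_pt (ξ : XX) : ∃ M, ∀ N, M ≤ N → ∃ q, ξ = pt N q := by
  obtain ⟨ξ, x, M, rfl, hx⟩ := ξ
  refine ⟨M, fun N hN => ⟨x N, Subtype.ext ?_⟩⟩
  show (x : Germ (atTop : Filter ℕ) ℚ) = ((fun n => eps^[n - N] (x N) : ℕ → ℚ) : _)
  rw [Germ.coe_eq]
  refine (eventually_ge_atTop N).mono (fun n hn => ?_)
  obtain ⟨k, rfl⟩ := Nat.exists_eq_add_of_le hn
  show x (N + k) = eps^[N + k - N] (x N)
  rw [Nat.add_sub_cancel_left]
  exact (hx.mono hN).iter k

theorem pt_lt {N : ℕ} {q r : ℚ} (h : pt N q < pt N r) : q < r := by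
  by_contra hcon
  rw [not_lt] at hcon
  have : pt N r ≤ pt N q := by
    refine coh_le (coh_pt N r) (coh_pt N q) ?_
    simpa using hcon
  exact absurd h (not_lt.2 this)

theorem pt_iter (N k : ℕ) (q : ℚ) : pt (N + k) (eps^[k] q) = pt N q := by
  apply Subtype.ext
  show ((fun n => eps^[n - (N + k)] (eps^[k] q) : ℕ → ℚ) : Germ (atTop : Filter ℕ) ℚ)
    = ((fun n => eps^[n - N] q : ℕ → ℚ) : _)
  rw [Germ.coe_eq]
  refine (eventually_ge_atTop (N + k)).mono (fun n hn => ?_)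
  show eps^[n - (N + k)] (eps^[k] q) = eps^[n - N] q
  rw [← Function.iterate_add_apply]
  congr 1
  omega

theorem del_pt (N : ℕ) (g : Equiv.Perm ℚ) (hg : g ∈ GG N) (q : ℚ) :
    (⟨del N g, mem_GI.2 ⟨N, g, hg, rfl⟩⟩ : GI) • pt N q = pt N (g q) := by
  apply Subtype.ext
  show ((fun n => Phi^[n - N] g (eps^[n - N] q) : ℕ → ℚ) : Germ (atTop : Filter ℕ) ℚ)
    = ((fun n => eps^[n - N] (g q) : ℕ → ℚ) : _)
  congr 1
  funext n
  generalize n - N = k
  induction k with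
  | zero => rfl
  | succ k ih => rw [Function.iterate_succ_apply', Function.iterate_succ_apply',
      Function.iterate_succ_apply', Phi_eps, ih]

theorem strongly_transitive (k : ℕ) (x y : Fin k → XX) (hx : StrictMono x) (hy : StrictMono y) :
    ∃ γ : GI, ∀ i, γ • x i = y i := by
  choose M hM using fun i => exists_pt (x i)
  choose L hL using fun i => exists_pt (y i)
  obtain ⟨N, hN⟩ : ∃ N, (∀ i, M i ≤ N) ∧ (∀ i, L i ≤ N) :=
    ⟨(∑ i, M i) + ∑ i, L i, fun i =>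
      (Finset.single_le_sum (f := M) (fun _ _ => Nat.zero_le _) (Finset.mem_univ i)).trans
        (Nat.le_add_right _ _), fun i =>
      (Finset.single_le_sum (f := L) (fun _ _ => Nat.zero_le _) (Finset.mem_univ i)).trans
        (Nat.le_add_left _ _)⟩
  choose q hq using fun i => hM i N (hN.1 i)
  choose r hr using fun i => hL i N (hN.2 i)
  have hqm : StrictMono q := fun i j hij => pt_lt (N := N) (by rw [← hq, ← hq]; exact hx hij)
  have hrm : StrictMono r := fun i j hij => pt_lt (N := N) (by rw [← hr, ← hr]; exact hy hij)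
  obtain ⟨g, hg, hgi⟩ := GG_trans k N q r hqm hrm
  refine ⟨⟨del (N + k) g, mem_GI.2 ⟨N + k, g, hg, rfl⟩⟩, fun i => ?_⟩
  rw [hq, hr, ← pt_iter N k (q i), ← pt_iter N k (r i), del_pt _ _ hg, hgi]

instance : Nontrivial XX := by
  refine ⟨pt 0 0, pt 0 1, ?_⟩
  intro h
  have h1 : pt 0 0 ≤ pt 0 1 := h.le
  have h2 : pt 0 1 ≤ pt 0 0 := h.ge
  have h3 : ∀ᶠ n in (atTop : Filter ℕ), eps^[n - 0] 1 ≤ eps^[n - 0] 0 := Germ.coe_le.1 h2
  obtain ⟨n, hn⟩ := h3.exists
  exact absurd ((eps_strictMono.iterate _) (zero_lt_one)) (not_lt.2 hn)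

/-- From a mean to a finitely additive measure. -/
theorem exists_measure {G : Type} [Group G] (h : Am G) : ∃ m : Set G → ℝ,
    (∀ A, 0 ≤ m A) ∧ m Set.univ = 1 ∧
    (∀ A B : Set G, Disjoint A B → m (A ∪ B) = m A + m B) ∧
    (∀ (g : G) (A : Set G), m ((fun h => g * h) '' A) = m A) := by
  classical
  obtain ⟨μ, hμ, hinv⟩ := h
  have hb : ∀ A : Set G, Bd (fun x => if x ∈ A then (1 : ℝ) else 0) := by
    intro A
    refine ⟨1, fun x => ?_⟩
    by_cases hx : x ∈ A <;> simp [hx]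
  refine ⟨fun A => μ (fun x => if x ∈ A then (1 : ℝ) else 0), ?_, ?_, ?_, ?_⟩
  · intro A
    refine hμ.nonneg _ (hb A) (fun x => ?_)
    by_cases hx : x ∈ A <;> simp [hx]
  · simp only [Set.mem_univ, if_true]
    exact hμ.one
  · intro A B hAB
    beta_reduce
    rw [← hμ.add _ _ (hb A) (hb B)]
    congr 1
    funext x
    by_cases hA : x ∈ A
    · have hB : x ∉ B := fun hB => Set.disjoint_left.1 hAB hA hB
      simp [hA, hB]
    · simp [hA]
  · intro g A
    beta_reduce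
    rw [← hinv g⁻¹ (fun x => if x ∈ A then (1 : ℝ) else 0) (hb A)]
    congr 1
    funext x
    congr 1
    rw [eq_iff_iff]
    constructor
    · rintro ⟨y, hy, rfl⟩
      simpa using hy
    · intro hx
      exact ⟨g⁻¹ * x, hx, by simp⟩

end Pool.Agent.W861.AM
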