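import Mathlib.GroupTheory.Commutator.Basic
import Mathlib.GroupTheory.Abelianization.Defs
import Mathlib.Topology.Algebra.Order.LiminfLimsup
import Mathlib.Analysis.SpecificLimits.Basic
import Mathlib.Order.Filter.Ultrafilter.Basic
import Mathlib.Tactic

set_option autoImplicit false

/-!
# A small library on amenable groups (invariant means on bounded functions)
-/

namespace Pool.Agent.W861.AM

open Filter Topology

/-- Bounded functions. -/
def Bd {α : Type*} (f : α → ℝ) : Prop := ∃ C, ∀ x, |f x| ≤ C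

theorem Bd.add {α : Type*} {f g : α → ℝ} (hf : Bd f) (hg : Bd g) : Bd (fun x => f x + g x) := by
  obtain ⟨C, hC⟩ := hf
  obtain ⟨D, hD⟩ := hg
  exact ⟨C + D, fun x => (abs_add_le _ _).trans (add_le_add (hC x) (hD x))⟩

theorem Bd.smul {α : Type*} {f : α → ℝ} (hf : Bd f) (c : ℝ) : Bd (fun x => c * f x) := by
  obtain ⟨C, hC⟩ := hf
  exact ⟨|c| * C, fun x => by rw [abs_mul]; exact mul_le_mul_of_nonneg_left (hC x) (abs_nonneg _)⟩

theorem Bd.comp {α β : Type*} {f : α → ℝ} (hf : Bd f) (φ : β → α) : Bd (fun x => f (φ x)) := by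
  obtain ⟨C, hC⟩ := hf
  exact ⟨C, fun x => hC _⟩

theorem Bd.const {α : Type*} (c : ℝ) : Bd (fun _ : α => c) := ⟨|c|, fun _ => le_rfl⟩

/-- A mean: a normalised positive linear functional on bounded functions. -/
structure IsMean {α : Type*} (μ : (α → ℝ) → ℝ) : Prop where
  add : ∀ f g, Bd f → Bd g → μ (fun x => f x + g x) = μ f + μ g
  smul : ∀ (c : ℝ) f, Bd f → μ (fun x => c * f x) = c * μ f
  nonneg : ∀ f, Bd f → (∀ x, 0 ≤ f x) → 0 ≤ μ f
  one : μ (fun _ => 1) = 1

namespace IsMean

variable {α : Type*} {μ : (α → ℝ) → ℝ}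

theorem const (h : IsMean μ) (c : ℝ) : μ (fun _ => c) = c := by
  have := h.smul c (fun _ => 1) (Bd.const 1)
  simpa [h.one] using this

theorem le_of_le (h : IsMean μ) {f : α → ℝ} (hf : Bd f) {C : ℝ} (hC : ∀ x, f x ≤ C) :
    μ f ≤ C := by
  have h1 := h.nonneg (fun x => C + (-1) * f x) ((Bd.const C).add (hf.smul (-1)))
    (fun x => by have := hC x; linarith)
  rw [h.add _ _ (Bd.const C) (hf.smul (-1)), h.smul _ _ hf, h.const] at h1
  linarith

theorem ge_of_ge (h : IsMean μ) {f : α → ℝ} (hf : Bd f) {C : ℝ} (hC : ∀ x, C ≤ f x) :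
    C ≤ μ f := by
  have h1 := h.nonneg (fun x => f x + (- C)) (hf.add (Bd.const _))
    (fun x => by have := hC x; linarith)
  rw [h.add _ _ hf (Bd.const _), h.const] at h1
  linarith

theorem abs_le (h : IsMean μ) {f : α → ℝ} {C : ℝ} (hC : ∀ x, |f x| ≤ C) : |μ f| ≤ C := by
  rw [_root_.abs_le]
  exact ⟨h.ge_of_ge ⟨C, hC⟩ (fun x => (_root_.abs_le.1 (hC x)).1),
    h.le_of_le ⟨C, hC⟩ (fun x => (_root_.abs_le.1 (hC x)).2)⟩

end IsMean

/-- Left invariance under one element. -/
def Inv {G : Type*} [Group G] (μ : (G → ℝ) → ℝ) (g : G) : Prop :=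
  ∀ f, Bd f → μ (fun x => f (g * x)) = μ f

/-- Amenable groups. -/
def Am (G : Type) [Group G] : Prop :=
  ∃ μ : (G → ℝ) → ℝ, IsMean μ ∧ ∀ g : G, Inv μ g

/-- The subgroup of elements that leave a functional invariant. -/
def invSub {G : Type*} [Group G] (μ : (G → ℝ) → ℝ) : Subgroup G where
  carrier := {g | Inv μ g}
  one_mem' := fun f _ => by simp
  mul_mem' := fun {a b} ha hb f hf => by
    have h1 := hb (fun x => f (a * x)) (hf.comp _)
    simp only [mul_assoc]
    rw [h1]
    exact ha f hf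
  inv_mem' := fun {a} ha f hf => by
    have h1 := ha (fun x => f (a⁻¹ * x)) (hf.comp _)
    rw [← h1]
    simp

theorem inv_of_closure {G : Type*} [Group G] {μ : (G → ℝ) → ℝ} {S : Set G}
    (hS : Subgroup.closure S = ⊤) (h : ∀ g ∈ S, Inv μ g) (g : G) : Inv μ g := by
  have h1 : Subgroup.closure S ≤ invSub μ := (Subgroup.closure_le _).2 (fun g hg => h g hg)
  rw [hS] at h1
  exact h1 (Subgroup.mem_top g)

/-- Quotients. -/
theorem Am.of_surjective {G Q : Type} [Group G] [Group Q] (hG : Am G) (π : G →* Q)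
    (hπ : Function.Surjective π) : Am Q := by
  obtain ⟨μ, hμ, hinv⟩ := hG
  refine ⟨fun f => μ (fun x => f (π x)), ⟨?_, ?_, ?_, ?_⟩, ?_⟩
  · intro f g hf hg
    exact hμ.add _ _ (hf.comp _) (hg.comp _)
  · intro c f hf
    exact hμ.smul c _ (hf.comp _)
  · intro f hf h
    exact hμ.nonneg _ (hf.comp _) (fun x => h _)
  · exact hμ.one
  · intro q f hf
    obtain ⟨g, rfl⟩ := hπ q
    have := hinv g (fun x => f (π x)) (hf.comp _)
    simpa using this

/-- Trivial groups. -/
theorem Am.of_subsingleton {G : Type} [Group G] [Subsingleton G] : Am G := by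
  refine ⟨fun f => f 1, ⟨fun _ _ _ _ => rfl, fun _ _ _ => rfl, fun f _ h => h 1, rfl⟩, ?_⟩
  intro g f _
  show f (g * 1) = f 1
  congr 1
  exact Subsingleton.elim _ _

/-! ### Ultralimits -/

/-- The limit along an ultrafilter. -/
noncomputable def ul {ι : Type*} (U : Ultrafilter ι) (a : ι → ℝ) : ℝ := limUnder (U : Filter ι) a

theorem ul_tendsto {ι : Type*} (U : Ultrafilter ι) {a : ι → ℝ} (ha : Bd a) :
    Tendsto a U (𝓝 (ul U a)) := by
  obtain ⟨C, hC⟩ := ha
  have hcomp : IsCompact (Set.Icc (-C) C) := isCompact_Icc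
  have hle : ((U.map a : Ultrafilter ℝ) : Filter ℝ) ≤ 𝓟 (Set.Icc (-C) C) := by
    rw [le_principal_iff, Ultrafilter.mem_coe, Ultrafilter.mem_map]
    exact Filter.univ_mem' (fun i => ⟨(abs_le.1 (hC i)).1, (abs_le.1 (hC i)).2⟩)
  obtain ⟨x, _, hx⟩ := hcomp.ultrafilter_le_nhds (U.map a) hle
  exact tendsto_nhds_limUnder ⟨x, hx⟩

theorem ul_eq {ι : Type*} (U : Ultrafilter ι) {a : ι → ℝ} {x : ℝ} (h : Tendsto a U (𝓝 x)) :
    ul U a = x := h.limUnder_eq

theorem ul_mean {ι α : Type*} (U : Ultrafilter ι) (μ : ι → (α → ℝ) → ℝ)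
    (h : ∀ i, IsMean (μ i)) : IsMean (fun f => ul U (fun i => μ i f)) := by
  have hb : ∀ f : α → ℝ, Bd f → Bd (fun i => μ i f) := by
    rintro f ⟨C, hC⟩
    exact ⟨C, fun i => (h i).abs_le hC⟩
  refine ⟨?_, ?_, ?_, ?_⟩
  · intro f g hf hg
    apply ul_eq
    have := (ul_tendsto U (hb f hf)).add (ul_tendsto U (hb g hg))
    refine this.congr (fun i => ?_)
    rw [(h i).add f g hf hg]
  · intro c f hf
    apply ul_eq
    have := (ul_tendsto U (hb f hf)).const_mul c
    refine this.congr (fun i => ?_)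
    rw [(h i).smul c f hf]
  · intro f hf hp
    exact ge_of_tendsto' (ul_tendsto U (hb f hf)) (fun i => (h i).nonneg f hf hp)
  · apply ul_eq
    simp only [(h _).one]
    exact tendsto_const_nhds

/-- Directed unions. -/
theorem Am.of_directed {G : Type} [Group G] {ι : Type} [Nonempty ι] [Preorder ι]
    [IsDirected ι (· ≤ ·)] (K : ι → Subgroup G) (hmono : Monotone K)
    (hK : ∀ g, ∃ i, g ∈ K i) (h : ∀ i, Am (K i)) : Am G := by
  choose μ hμ hinv using h
  obtain ⟨U, hU⟩ : ∃ U : Ultrafilter ι, (U : Filter ι) ≤ atTop := Ultrafilter.exists_le atTop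
  have hm : ∀ i, IsMean (fun f : G → ℝ => μ i (fun x : K i => f x)) := by
    intro i
    refine ⟨?_, ?_, ?_, ?_⟩
    · intro f g hf hg
      exact (hμ i).add _ _ (hf.comp _) (hg.comp _)
    · intro c f hf
      exact (hμ i).smul c _ (hf.comp _)
    · intro f hf hp
      exact (hμ i).nonneg _ (hf.comp _) (fun x => hp _)
    · exact (hμ i).one
  refine ⟨_, ul_mean U _ hm, ?_⟩
  intro g f hf
  obtain ⟨i₀, hi₀⟩ := hK g
  apply ul_eq
  have hbd : Bd (fun i => μ i (fun x : K i => f x)) := by
    obtain ⟨C, hC⟩ := hf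
    exact ⟨C, fun i => (hm i).abs_le hC⟩
  refine (ul_tendsto U hbd).congr' ?_
  have hev : ∀ᶠ i in (U : Filter ι), i₀ ≤ i := hU (Filter.eventually_ge_atTop i₀)
  filter_upwards [hev] with i hi
  have := hinv i ⟨g, hmono hi hi₀⟩ (fun x : K i => f x) (hf.comp _)
  exact this.symm

/-- The integers. -/
theorem Am.int : Am (Multiplicative ℤ) := by
  let U : Ultrafilter ℕ := hyperfilter ℕ
  let μ : ℕ → (Multiplicative ℤ → ℝ) → ℝ := fun n f =>
    (∑ k ∈ Finset.range (n + 1), f (Multiplicative.ofAdd (k : ℤ))) / (n + 1)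
  have hpos : ∀ n : ℕ, (0 : ℝ) < n + 1 := fun n => by positivity
  have hm : ∀ n, IsMean (μ n) := by
    intro n
    refine ⟨?_, ?_, ?_, ?_⟩
    · intro f g _ _
      simp only [μ, Finset.sum_add_distrib, add_div]
    · intro c f _
      simp only [μ, ← Finset.mul_sum, mul_div_assoc]
    · intro f _ hp
      exact div_nonneg (Finset.sum_nonneg (fun _ _ => hp _)) (hpos n).le
    · simp only [μ, Finset.sum_const, Finset.card_range, nsmul_eq_mul, mul_one]
      push_cast
      exact div_self (hpos n).ne'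
  refine ⟨_, ul_mean U μ hm, ?_⟩
  refine inv_of_closure (S := {Multiplicative.ofAdd (1 : ℤ)}) ?_ ?_
  · rw [← Subgroup.zpowers_eq_closure]
    rw [eq_top_iff]
    intro x _
    rw [Subgroup.mem_zpowers_iff]
    refine ⟨Multiplicative.toAdd x, ?_⟩
    rw [← ofAdd_zsmul]
    simp
  · intro g hg f hf
    rw [Set.mem_singleton_iff] at hg
    subst hg
    have hbd : Bd (fun n => μ n f) := by
      obtain ⟨C, hC⟩ := hf
      exact ⟨C, fun i => (hm i).abs_le hC⟩
    apply ul_eq
    have hlim : Tendsto (fun n => μ n (fun x => f (Multiplicative.ofAdd (1 : ℤ) * x)) - μ n f)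
        (U : Filter ℕ) (𝓝 0) := by
      obtain ⟨C, hC⟩ := hf
      have hle : (U : Filter ℕ) ≤ atTop := Nat.hyperfilter_le_atTop
      refine Tendsto.mono_left ?_ hle
      refine squeeze_zero_norm (a := fun n : ℕ => 2 * C * (1 / ((n : ℝ) + 1))) ?_ ?_
      · intro n
        have h1 : μ n (fun x => f (Multiplicative.ofAdd (1 : ℤ) * x)) - μ n f
            = (f (Multiplicative.ofAdd ((n : ℤ) + 1)) - f (Multiplicative.ofAdd 0)) / (n + 1) := by
          simp only [μ]
          rw [← sub_div]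
          congr 1
          have h2 : ∀ k : ℕ, f (Multiplicative.ofAdd (1 : ℤ) * Multiplicative.ofAdd (k : ℤ))
              = f (Multiplicative.ofAdd (((k + 1 : ℕ) : ℤ))) := by
            intro k
            congr 1
            rw [← ofAdd_add]
            push_cast
            rw [add_comm]
          simp only [h2]
          rw [Finset.sum_range_succ (fun k : ℕ => f (Multiplicative.ofAdd (((k + 1 : ℕ) : ℤ)))),
            Finset.sum_range_succ' (fun k : ℕ => f (Multiplicative.ofAdd ((k : ℕ) : ℤ)))]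
          push_cast
          ring
        rw [h1, Real.norm_eq_abs, abs_div, abs_of_pos (hpos n), div_eq_mul_one_div]
        apply mul_le_mul_of_nonneg_right _ (by positivity)
        calc |f (Multiplicative.ofAdd ((n : ℤ) + 1)) - f (Multiplicative.ofAdd 0)|
            ≤ |f (Multiplicative.ofAdd ((n : ℤ) + 1))| + |f (Multiplicative.ofAdd 0)| := abs_sub _ _
          _ ≤ C + C := add_le_add (hC _) (hC _)
          _ = 2 * C := by ring
      · have := (tendsto_one_div_add_atTop_nhds_zero_nat (𝕜 := ℝ)).const_mul (2 * C)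
        rw [mul_zero] at this
        exact this
    have := hlim.add (ul_tendsto U hbd)
    simp only [zero_add] at this
    refine this.congr (fun n => ?_)
    simp only [sub_add_cancel]

/-- Cyclic groups. -/
theorem Am.zpowers {G : Type} [Group G] (g : G) : Am (Subgroup.zpowers g) := by
  refine Am.int.of_surjective (zpowersHom G g).rangeRestrict ?_
  exact (zpowersHom G g).rangeRestrict_surjective

/-- `U V` is amenable if `V` normalises `U`. -/
theorem Am.sup {G : Type} [Group G] (U V : Subgroup G) (hn : ∀ v ∈ V, ∀ u ∈ U, v⁻¹ * u * v ∈ U)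
    (hU : Am U) (hV : Am V) : Am (U ⊔ V : Subgroup G) := by
  obtain ⟨ν, hν, iν⟩ := hU
  obtain ⟨l, hl, il⟩ := hV
  have hmem : ∀ (v : V) (u : U), (v : G) * u ∈ U ⊔ V := fun v u =>
    Subgroup.mul_mem _ (Subgroup.mem_sup_right v.2) (Subgroup.mem_sup_left u.2)
  have hbd : ∀ f : (U ⊔ V : Subgroup G) → ℝ, Bd f →
      Bd (fun v : V => ν (fun u : U => f ⟨v * u, hmem v u⟩)) := by
    rintro f ⟨C, hC⟩
    exact ⟨C, fun v => hν.abs_le (fun u => hC _)⟩
  refine ⟨fun f => l (fun v : V => ν (fun u : U => f ⟨v * u, hmem v u⟩)), ⟨?_, ?_, ?_, ?_⟩, ?_⟩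
  · intro f g hf hg
    rw [← hl.add _ _ (hbd f hf) (hbd g hg)]
    congr 1
    funext v
    exact hν.add _ _ (hf.comp _) (hg.comp _)
  · intro c f hf
    rw [← hl.smul _ _ (hbd f hf)]
    congr 1
    funext v
    exact hν.smul _ _ (hf.comp _)
  · intro f hf hp
    exact hl.nonneg _ (hbd f hf) (fun v => hν.nonneg _ (hf.comp _) (fun u => hp _))
  · simp only [hν.one, hl.one]
  · have hcl : Subgroup.closure
        ({x : (U ⊔ V : Subgroup G) | (x : G) ∈ U} ∪ {x : (U ⊔ V : Subgroup G) | (x : G) ∈ V}) = ⊤ := by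
      rw [eq_top_iff]
      rintro ⟨x, hx⟩ _
      have h1 : U ⊔ V ≤ (Subgroup.closure
          ({x : (U ⊔ V : Subgroup G) | (x : G) ∈ U} ∪ {x : (U ⊔ V : Subgroup G) | (x : G) ∈ V})).map
            (U ⊔ V : Subgroup G).subtype := by
        refine sup_le ?_ ?_
        · intro y hy
          exact ⟨⟨y, Subgroup.mem_sup_left hy⟩, Subgroup.subset_closure (Or.inl hy), rfl⟩
        · intro y hy
          exact ⟨⟨y, Subgroup.mem_sup_right hy⟩, Subgroup.subset_closure (Or.inr hy), rfl⟩
      obtain ⟨y, hy, hyx⟩ := h1 hx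
      have : y = ⟨x, hx⟩ := Subtype.ext hyx
      rw [← this]
      exact hy
    refine inv_of_closure hcl ?_
    rintro ⟨x, hx⟩ (hxU | hxV) f hf
    · change x ∈ U at hxU
      beta_reduce
      congr 1
      funext v
      have := iν ⟨(v : G)⁻¹ * x * v, hn v v.2 x hxU⟩ (fun u : U => f ⟨v * u, hmem v u⟩) (hf.comp _)
      rw [← this]
      congr 1
      funext u
      congr 1
      ext
      simp only [Subgroup.coe_mul]
      group
    · change x ∈ V at hxV
      beta_reduce
      have := il ⟨x, hxV⟩ (fun v : V => ν (fun u : U => f ⟨v * u, hmem v u⟩)) (hbd f hf)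
      rw [← this]
      congr 1
      funext v
      congr 1
      funext u
      congr 1
      ext
      simp only [Subgroup.coe_mul]
      group

/-- A group with amenable commutator subgroup is amenable. -/
theorem Am.of_commutator {G : Type} [Group G] (h : Am (commutator G)) : Am G := by
  classical
  have step : ∀ F : Finset G, Am (commutator G ⊔ Subgroup.closure (F : Set G) : Subgroup G) := by
    intro F
    induction F using Finset.induction_on with
    | empty =>
      rw [Finset.coe_empty, Subgroup.closure_empty, sup_bot_eq]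
      exact h
    | insert a F _ ih =>
      have h1 : (commutator G ⊔ Subgroup.closure ((insert a F : Finset G) : Set G) : Subgroup G)
          = (commutator G ⊔ Subgroup.closure (F : Set G)) ⊔ Subgroup.zpowers a := by
        rw [Finset.coe_insert, Set.insert_eq, Subgroup.closure_union,
          ← Subgroup.zpowers_eq_closure, sup_assoc, sup_comm (Subgroup.zpowers a)]
      rw [h1]
      refine Am.sup _ _ ?_ ih (Am.zpowers a)
      intro v _ u hu
      have h2 : v⁻¹ * u * v = u * (u⁻¹ * v⁻¹ * u * v) := by group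
      rw [h2]
      refine Subgroup.mul_mem _ hu (Subgroup.mem_sup_left ?_)
      open scoped commutatorElement in
      have h3 : u⁻¹ * v⁻¹ * u * v = ⁅u⁻¹, v⁻¹⁆ := by
        rw [commutatorElement_def]; group
      rw [h3]
      exact Subgroup.commutator_mem_commutator (Subgroup.mem_top _) (Subgroup.mem_top _)
  refine Am.of_directed (fun F : Finset G => commutator G ⊔ Subgroup.closure (F : Set G)) ?_ ?_ step
  · intro F F' hF
    exact sup_le_sup_left (Subgroup.closure_mono (by exact_mod_cast hF)) _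
  · intro g
    exact ⟨{g}, Subgroup.mem_sup_right (Subgroup.subset_closure (by simp))⟩

/-- Transport along an injective image. -/
theorem Am.map {G H : Type} [Group G] [Group H] (K : Subgroup G) (hK : Am K) (φ : G →* H) :
    Am (K.map φ) := by
  refine hK.of_surjective ((φ.comp K.subtype).codRestrict (K.map φ)
    (fun x => ⟨x, x.2, rfl⟩)) ?_
  rintro ⟨y, x, hx, rfl⟩
  exact ⟨⟨x, hx⟩, rfl⟩

theorem Am.top {G : Type} [Group G] (h : Am (⊤ : Subgroup G)) : Am G :=
  h.of_surjective (⊤ : Subgroup G).subtype (fun x => ⟨⟨x, Subgroup.mem_top x⟩, rfl⟩)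

end Pool.Agent.W861.AM
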