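import Pool.Agent.W861.AM.Tri
import Mathlib.Algebra.Order.Ring.Rat
import Mathlib.Data.Rat.Denumerable
import Mathlib.Data.Finsupp.Encodable

set_option autoImplicit false

/-!
# The tower of groups acting on `ℚ`
-/

namespace Pool.Agent.W861.AM

/-- The lexicographic order. -/
def LexLt (f g : ℚ →₀ ℤ) : Prop := ∃ i, (∀ j, j < i → f j = g j) ∧ f i < g i

instance : Countable (Lex (ℚ →₀ ℤ)) := inferInstanceAs (Countable (ℚ →₀ ℤ))
instance : Nonempty (Lex (ℚ →₀ ℤ)) := ⟨toLex 0⟩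

theorem lex_iff (f g : ℚ →₀ ℤ) : toLex f < toLex g ↔ LexLt f g := Iff.rfl

instance : DenselyOrdered (Lex (ℚ →₀ ℤ)) := by
  refine ⟨fun a b h => ?_⟩
  obtain ⟨i, h1, h2⟩ := (lex_iff (ofLex a) (ofLex b)).1 h
  obtain ⟨j, hj⟩ := exists_gt i
  refine ⟨toLex (ofLex a + Finsupp.single j 1), ?_, ?_⟩
  · refine (lex_iff (ofLex a) _).2 ⟨j, fun x hx => ?_, ?_⟩
    · rw [Finsupp.add_apply, Finsupp.single_eq_of_ne (by exact hx.ne), add_zero]
    · rw [Finsupp.add_apply, Finsupp.single_eq_same]; omega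
  · refine (lex_iff _ (ofLex b)).2 ⟨i, fun x hx => ?_, ?_⟩
    · rw [Finsupp.add_apply, Finsupp.single_eq_of_ne (by exact (hx.trans hj).ne), add_zero]
      exact h1 x hx
    · rw [Finsupp.add_apply, Finsupp.single_eq_of_ne (by exact hj.ne), add_zero]
      exact h2

instance : NoMaxOrder (Lex (ℚ →₀ ℤ)) := by
  refine ⟨fun a => ⟨toLex (ofLex a + Finsupp.single 0 1), ?_⟩⟩
  refine (lex_iff (ofLex a) _).2 ⟨0, fun x hx => ?_, ?_⟩
  · rw [Finsupp.add_apply, Finsupp.single_eq_of_ne (by exact hx.ne), add_zero]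
  · rw [Finsupp.add_apply, Finsupp.single_eq_same]; omega

instance : NoMinOrder (Lex (ℚ →₀ ℤ)) := by
  refine ⟨fun a => ⟨toLex (ofLex a - Finsupp.single 0 1), ?_⟩⟩
  refine (lex_iff _ (ofLex a)).2 ⟨0, fun x hx => ?_, ?_⟩
  · rw [Finsupp.sub_apply, Finsupp.single_eq_of_ne (by exact hx.ne), sub_zero]
  · rw [Finsupp.sub_apply, Finsupp.single_eq_same]; omega

theorem exists_psi : ∃ ψ : (ℚ →₀ ℤ) ≃ ℚ, ∀ f g, ψ f < ψ g ↔ LexLt f g := by
  obtain ⟨e⟩ := Order.iso_of_countable_dense (Lex (ℚ →₀ ℤ)) ℚ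
  refine ⟨toLex.trans e.toEquiv, fun f g => ?_⟩
  rw [← lex_iff]
  exact e.lt_iff_lt

/-- The order isomorphism. -/
noncomputable def psi : (ℚ →₀ ℤ) ≃ ℚ := exists_psi.choose

theorem psi_lt {f g : ℚ →₀ ℤ} : psi f < psi g ↔ LexLt f g := exists_psi.choose_spec f g

/-- The self-embedding of `ℚ`. -/
noncomputable def eps (x : ℚ) : ℚ := psi (- Finsupp.single x 1)

theorem eps_strictMono : StrictMono eps := by
  intro x y hxy
  refine psi_lt.2 ⟨x, fun j hj => ?_, ?_⟩
  · rw [Finsupp.neg_apply, Finsupp.neg_apply, Finsupp.single_eq_of_ne (by exact hj.ne),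
      Finsupp.single_eq_of_ne (by exact (hj.trans hxy).ne)]
  · rw [Finsupp.neg_apply, Finsupp.neg_apply, Finsupp.single_eq_same,
      Finsupp.single_eq_of_ne (by exact hxy.ne)]
    norm_num

/-- The permutation of `ℚ →₀ ℤ` given by a permutation of `ℚ`. -/
noncomputable def gstar : Equiv.Perm ℚ →* Equiv.Perm (ℚ →₀ ℤ) where
  toFun g :=
    { toFun := fun f => Finsupp.equivMapDomain g f
      invFun := fun f => Finsupp.equivMapDomain g.symm f
      left_inv := fun f => by ext x; simp [Finsupp.equivMapDomain_apply]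
      right_inv := fun f => by ext x; simp [Finsupp.equivMapDomain_apply] }
  map_one' := by ext f x; simp [Finsupp.equivMapDomain_apply]; rfl
  map_mul' g h := by ext f x; simp [Finsupp.equivMapDomain_apply]; rfl

theorem gstar_apply (g : Equiv.Perm ℚ) (f : ℚ →₀ ℤ) (x : ℚ) : gstar g f x = f (g.symm x) := rfl

theorem gstar_apply' (g : Equiv.Perm ℚ) (f : ℚ →₀ ℤ) (x : ℚ) : gstar g f (g x) = f x := by
  rw [gstar_apply, Equiv.symm_apply_apply]

/-- Conjugation by `psi`. -/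
noncomputable def cc : Equiv.Perm (ℚ →₀ ℤ) →* Equiv.Perm ℚ := psi.permCongrHom.toMonoidHom

theorem cc_apply (φ : Equiv.Perm (ℚ →₀ ℤ)) (x : ℚ) : cc φ x = psi (φ (psi.symm x)) := rfl

/-- The homomorphism `Φ`. -/
noncomputable def Phi : Equiv.Perm ℚ →* Equiv.Perm ℚ := cc.comp gstar

theorem Phi_eps (g : Equiv.Perm ℚ) (x : ℚ) : Phi g (eps x) = eps (g x) := by
  show cc (gstar g) (psi _) = psi _
  rw [cc_apply, Equiv.symm_apply_apply]
  congr 1
  ext y
  rw [gstar_apply, Finsupp.neg_apply, Finsupp.neg_apply]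
  congr 1
  by_cases h : y = g x
  · subst h
    rw [Equiv.symm_apply_apply, Finsupp.single_eq_same, Finsupp.single_eq_same]
  · rw [Finsupp.single_eq_of_ne h, Finsupp.single_eq_of_ne]
    intro h'
    apply h
    rw [← h', Equiv.apply_symm_apply]

theorem tri_lexLt {φ : Equiv.Perm (ℚ →₀ ℤ)} (h : Tri φ) {f g : ℚ →₀ ℤ} (hfg : LexLt f g) :
    LexLt (φ f) (φ g) := by
  obtain ⟨i, h1, h2⟩ := hfg
  refine ⟨i, h.congr h1, ?_⟩
  have := h f g i h1
  omega

theorem gstar_lexLt {g : Equiv.Perm ℚ} (hg : StrictMono g) {f f' : ℚ →₀ ℤ} (h : LexLt f f') :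
    LexLt (gstar g f) (gstar g f') := by
  obtain ⟨i, h1, h2⟩ := h
  refine ⟨g i, fun j hj => ?_, ?_⟩
  · rw [gstar_apply, gstar_apply]
    apply h1
    rw [← hg.lt_iff_lt, Equiv.apply_symm_apply]
    exact hj
  · rw [gstar_apply', gstar_apply']
    exact h2

/-- The group of increasing permutations. -/
def Mo : Subgroup (Equiv.Perm ℚ) where
  carrier := {g | StrictMono g}
  one_mem' := fun _ _ h => h
  mul_mem' := fun ha hb _ _ hxy => ha (hb hxy)
  inv_mem' := fun {a} ha x y hxy => by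
    rw [← ha.lt_iff_lt]
    simpa using hxy

theorem cc_mem {φ : Equiv.Perm (ℚ →₀ ℤ)} (h : ∀ f g, LexLt f g → LexLt (φ f) (φ g)) :
    cc φ ∈ Mo := by
  intro x y hxy
  rw [cc_apply, cc_apply]
  refine psi_lt.2 (h _ _ (psi_lt.1 ?_))
  simpa using hxy

/-- The conjugate of the triangular group. -/
noncomputable def UQ : Subgroup (Equiv.Perm ℚ) := (UU ℚ).map cc

theorem UQ_le : UQ ≤ Mo := by
  rintro _ ⟨φ, hφ, rfl⟩
  exact cc_mem (fun f g => tri_lexLt hφ.1)

theorem UQ_am : Am UQ := Am.map _ UU_am _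

theorem Phi_mem {g : Equiv.Perm ℚ} (hg : g ∈ Mo) : Phi g ∈ Mo :=
  cc_mem (fun _ _ => gstar_lexLt hg)

/-- `Φ(g)` normalises `UQ`. -/
theorem conj_UQ {g : Equiv.Perm ℚ} (hg : g ∈ Mo) {u : Equiv.Perm ℚ} (hu : u ∈ UQ) :
    (Phi g)⁻¹ * u * Phi g ∈ UQ := by
  classical
  obtain ⟨φ, ⟨h1, R, h2⟩, rfl⟩ := hu
  refine ⟨(gstar g)⁻¹ * φ * gstar g, ⟨?_, ?_⟩, ?_⟩
  · intro f f' s hs
    have e : ∀ (k : ℚ →₀ ℤ) (x : ℚ), ((gstar g)⁻¹ k) x = k (g x) := by
      intro k x
      have := gstar_apply' g ((gstar g)⁻¹ k) x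
      rw [← this]
      simp
    show ((gstar g)⁻¹ (φ (gstar g f))) s - f s = ((gstar g)⁻¹ (φ (gstar g f'))) s - f' s
    rw [e, e]
    have h3 := h1 (gstar g f) (gstar g f') (g s) (by
      intro x hx
      rw [gstar_apply, gstar_apply]
      apply hs
      rw [← (show StrictMono g from hg).lt_iff_lt, Equiv.apply_symm_apply]
      exact hx)
    rw [gstar_apply', gstar_apply'] at h3
    exact h3
  · refine ⟨R.image g.symm, fun f x hx => ?_⟩
    have e : ∀ (k : ℚ →₀ ℤ) (x : ℚ), ((gstar g)⁻¹ k) x = k (g x) := by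
      intro k x
      have := gstar_apply' g ((gstar g)⁻¹ k) x
      rw [← this]
      simp
    show ((gstar g)⁻¹ (φ (gstar g f))) x = f x
    rw [e, h2, gstar_apply']
    intro hmem
    apply hx
    exact Finset.mem_image.2 ⟨g x, hmem, by simp⟩
  · simp [Phi, map_mul]

/-- The tower of groups. -/
noncomputable def GG : ℕ → Subgroup (Equiv.Perm ℚ)
  | 0 => ⊥
  | n + 1 => UQ ⊔ (GG n).map Phi

theorem GG_le (n : ℕ) : GG n ≤ Mo := by
  induction n with
  | zero => exact bot_le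
  | succ n ih =>
    refine sup_le UQ_le ?_
    rintro _ ⟨g, hg, rfl⟩
    exact Phi_mem (ih hg)

theorem GG_am (n : ℕ) : Am (GG n) := by
  induction n with
  | zero =>
    have : Subsingleton (GG 0) := ⟨fun a b => by
      have ha := a.2
      have hb := b.2
      change (a : Equiv.Perm ℚ) ∈ (⊥ : Subgroup (Equiv.Perm ℚ)) at ha
      change (b : Equiv.Perm ℚ) ∈ (⊥ : Subgroup (Equiv.Perm ℚ)) at hb
      rw [Subgroup.mem_bot] at ha hb
      exact Subtype.ext (ha.trans hb.symm)⟩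
    exact Am.of_subsingleton
  | succ n ih =>
    refine Am.sup _ _ ?_ UQ_am (Am.map _ ih _)
    rintro _ ⟨g, hg, rfl⟩ u hu
    exact conj_UQ (GG_le n hg) hu

theorem Phi_GG {n : ℕ} {g : Equiv.Perm ℚ} (hg : g ∈ GG n) : Phi g ∈ GG (n + 1) :=
  Subgroup.mem_sup_right ⟨g, hg, rfl⟩

/-- The affine triangular map moving the last point. -/
theorem exists_move {k : ℕ} (y : Fin k → ℚ) (hy : StrictMono y) (a b : ℚ) (ha : ∀ i, y i < a)
    (hb : ∀ i, y i < b) : ∃ h ∈ UQ, (∀ i, h (eps (y i)) = eps (y i)) ∧ h (eps a) = eps b := by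
  classical
  let Y : Finset ℚ := Finset.univ.image y
  have hYa : a ∉ Y := by
    intro h
    obtain ⟨i, _, hi⟩ := Finset.mem_image.1 h
    exact absurd (ha i) (by rw [hi]; exact lt_irrefl _)
  have hYb : b ∉ Y := by
    intro h
    obtain ⟨i, _, hi⟩ := Finset.mem_image.1 h
    exact absurd (hb i) (by rw [hi]; exact lt_irrefl _)
  let σ : (ℚ →₀ ℤ) → ℤ := fun f => ∑ x ∈ Y, f x
  let m : ℚ →₀ ℤ := Finsupp.single a 1 - Finsupp.single b 1
  have hm : ∀ x, x ≠ a → x ≠ b → m x = 0 := by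
    intro x hxa hxb
    simp only [m, Finsupp.sub_apply]
    rw [Finsupp.single_eq_of_ne hxa, Finsupp.single_eq_of_ne hxb, sub_zero]
  have hσm : ∀ (f : ℚ →₀ ℤ) (c : ℤ), σ (f + c • m) = σ f := by
    intro f c
    simp only [σ]
    refine Finset.sum_congr rfl (fun x hx => ?_)
    rw [Finsupp.add_apply, Finsupp.smul_apply, hm x (by rintro rfl; exact hYa hx)
      (by rintro rfl; exact hYb hx), smul_zero, add_zero]
  let φ : Equiv.Perm (ℚ →₀ ℤ) :=
    { toFun := fun f => f + (1 + σ f) • m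
      invFun := fun f => f + (-(1 + σ f)) • m
      left_inv := fun f => by
        show (f + (1 + σ f) • m) + (-(1 + σ (f + (1 + σ f) • m))) • m = f
        rw [hσm]; module
      right_inv := fun f => by
        show (f + (-(1 + σ f)) • m) + (1 + σ (f + (-(1 + σ f)) • m)) • m = f
        rw [hσm]; module }
  have hφ : ∀ f, φ f = f + (1 + σ f) • m := fun f => rfl
  have hYs : ∀ s, (s = a ∨ s = b) → ∀ x ∈ Y, x < s := by
    intro s hs x hx
    obtain ⟨i, _, rfl⟩ := Finset.mem_image.1 hx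
    rcases hs with rfl | rfl
    · exact ha i
    · exact hb i
  refine ⟨cc φ, ⟨φ, ⟨?_, {a, b}, ?_⟩, rfl⟩, ?_, ?_⟩
  · intro f g s hfg
    rw [hφ, hφ, Finsupp.add_apply, Finsupp.add_apply, Finsupp.smul_apply, Finsupp.smul_apply]
    by_cases hs : s = a ∨ s = b
    · have : σ f = σ g := Finset.sum_congr rfl (fun x hx => hfg x (hYs s hs x hx))
      rw [this]; ring
    · rw [not_or] at hs
      rw [hm s hs.1 hs.2]; simp
  · intro f x hx
    rw [Finset.mem_insert, Finset.mem_singleton, not_or] at hx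
    rw [hφ, Finsupp.add_apply, Finsupp.smul_apply, hm x hx.1 hx.2]
    simp
  · intro i
    show cc φ (psi _) = psi _
    rw [cc_apply, Equiv.symm_apply_apply]
    congr 1
    rw [hφ]
    have : σ (- Finsupp.single (y i) 1) = -1 := by
      simp only [σ]
      rw [Finset.sum_eq_single (y i)]
      · rw [Finsupp.neg_apply, Finsupp.single_eq_same]
      · intro x _ hx
        rw [Finsupp.neg_apply, Finsupp.single_eq_of_ne hx, neg_zero]
      · intro h
        exact absurd (Finset.mem_image.2 ⟨i, Finset.mem_univ _, rfl⟩) h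
    rw [this]
    simp
  · show cc φ (psi _) = psi _
    rw [cc_apply, Equiv.symm_apply_apply]
    congr 1
    rw [hφ]
    have : σ (- Finsupp.single a 1) = 0 := by
      simp only [σ]
      refine Finset.sum_eq_zero (fun x hx => ?_)
      rw [Finsupp.neg_apply, Finsupp.single_eq_of_ne (by rintro rfl; exact hYa hx), neg_zero]
    rw [this]
    simp only [m, add_zero, one_smul]
    abel

/-- Transitivity in the tower. -/
theorem GG_trans (k : ℕ) : ∀ (N : ℕ) (x y : Fin k → ℚ), StrictMono x → StrictMono y →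
    ∃ g ∈ GG (N + k), ∀ i, g (eps^[k] (x i)) = eps^[k] (y i) := by
  induction k with
  | zero =>
    intro N x y _ _
    exact ⟨1, Subgroup.one_mem _, fun i => i.elim0⟩
  | succ k ih =>
    intro N x y hx hy
    obtain ⟨g, hg, hgi⟩ := ih N (fun i => x i.castSucc) (fun i => y i.castSucc)
      (fun i j hij => hx (Fin.castSucc_lt_castSucc_iff.2 hij))
      (fun i j hij => hy (Fin.castSucc_lt_castSucc_iff.2 hij))
    have hek : StrictMono (eps^[k]) := eps_strictMono.iterate k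
    have hgm : StrictMono g := GG_le _ hg
    obtain ⟨h, hh, h1, h2⟩ := exists_move (fun i : Fin k => eps^[k] (y i.castSucc))
      (fun i j hij => hek (hy (Fin.castSucc_lt_castSucc_iff.2 hij)))
      (g (eps^[k] (x (Fin.last k)))) (eps^[k] (y (Fin.last k)))
      (fun i => by
        rw [← hgi i]
        exact hgm (hek (hx (Fin.castSucc_lt_last i))))
      (fun i => hek (hy (Fin.castSucc_lt_last i)))
    refine ⟨h * Phi g, ?_, ?_⟩
    · exact Subgroup.mul_mem _ (Subgroup.mem_sup_left hh) (Phi_GG hg)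
    · intro i
      rw [Function.iterate_succ_apply', Function.iterate_succ_apply', Equiv.Perm.mul_apply, Phi_eps]
      refine Fin.lastCases ?_ (fun j => ?_) i
      · exact h2
      · rw [hgi j]; exact h1 j

end Pool.Agent.W861.AM
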