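import Pool.Agent.W861.AM.Mean
import Mathlib.Data.Finsupp.Basic
import Mathlib.Data.Finsupp.Lex
import Mathlib.Order.CountableDenseLinearOrder

set_option autoImplicit false

/-!
# Finitary triangular permutations of `X →₀ ℤ`
-/

namespace Pool.Agent.W861.AM

variable {X : Type} [LinearOrder X]

/-- Triangular maps. -/
def Tri (φ : Equiv.Perm (X →₀ ℤ)) : Prop :=
  ∀ (f g : X →₀ ℤ) (s : X), (∀ x < s, f x = g x) → φ f s - f s = φ g s - g s

/-- The coordinates outside `R` are fixed. -/
def FixOff (R : Finset X) (φ : Equiv.Perm (X →₀ ℤ)) : Prop :=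
  ∀ (f : X →₀ ℤ), ∀ x ∉ R, φ f x = f x

theorem Tri.congr {φ : Equiv.Perm (X →₀ ℤ)} (h : Tri φ) {f g : X →₀ ℤ} {s : X}
    (hfg : ∀ x < s, f x = g x) : ∀ x < s, φ f x = φ g x := by
  intro x hx
  have := h f g x (fun y hy => hfg y (hy.trans hx))
  have h2 := hfg x hx
  omega

theorem Tri.one : Tri (1 : Equiv.Perm (X →₀ ℤ)) := by
  intro f g s _
  simp

theorem Tri.mul {φ ψ : Equiv.Perm (X →₀ ℤ)} (h : Tri φ) (h' : Tri ψ) : Tri (φ * ψ) := by
  intro f g s hfg
  have h1 := h' f g s hfg
  have h2 := h (ψ f) (ψ g) s (h'.congr hfg)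
  rw [Equiv.Perm.mul_apply, Equiv.Perm.mul_apply]
  omega

theorem exists_min_ne {f g : X →₀ ℤ} (h : f ≠ g) : ∃ i, f i ≠ g i ∧ ∀ x < i, f x = g x := by
  classical
  have hne : (f - g).support.Nonempty := by
    rw [Finsupp.support_nonempty_iff]
    exact sub_ne_zero.2 h
  refine ⟨(f - g).support.min' hne, ?_, ?_⟩
  · have := (f - g).support.min'_mem hne
    rw [Finsupp.mem_support_iff, Finsupp.sub_apply] at this
    exact sub_ne_zero.1 this
  · intro x hx
    by_contra hxne
    have hmem : x ∈ (f - g).support := by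
      rw [Finsupp.mem_support_iff, Finsupp.sub_apply]
      exact sub_ne_zero.2 hxne
    exact absurd ((f - g).support.min'_le x hmem) (not_le.2 hx)

theorem Tri.inv {φ : Equiv.Perm (X →₀ ℤ)} (h : Tri φ) : Tri φ⁻¹ := by
  intro f g s hfg
  set f' := φ⁻¹ f with hf'
  set g' := φ⁻¹ g with hg'
  have ef : φ f' = f := by rw [hf']; simp
  have eg : φ g' = g := by rw [hg']; simp
  have key : ∀ x < s, f' x = g' x := by
    by_contra hcon
    push Not at hcon
    obtain ⟨x₀, hx₀, hne₀⟩ := hcon
    have hne : f' ≠ g' := fun e => hne₀ (by rw [e])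
    obtain ⟨i, hi, hmin⟩ := exists_min_ne hne
    have his : i < s := by
      rcases lt_or_ge x₀ i with h1 | h1
      · exact absurd (hmin x₀ h1) hne₀
      · exact lt_of_le_of_lt h1 hx₀
    have h1 := h f' g' i hmin
    rw [ef, eg, hfg i his] at h1
    apply hi
    omega
  have h1 := h f' g' s key
  rw [ef, eg] at h1
  omega

theorem tri_am (k : ℕ) : ∀ (R : Finset X), R.card = k → ∀ (G : Type) [Group G]
    (ρ : G →* Equiv.Perm (X →₀ ℤ)), Function.Injective ρ → (∀ g, Tri (ρ g)) →
    (∀ g, FixOff R (ρ g)) → Am G := by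
  induction k with
  | zero =>
    intro R hR G _ ρ hρ _ hF
    rw [Finset.card_eq_zero] at hR
    subst hR
    have : Subsingleton G := by
      refine ⟨fun a b => hρ ?_⟩
      ext f x
      rw [hF a f x (by simp), hF b f x (by simp)]
    exact Am.of_subsingleton
  | succ k ih =>
    intro R hR G _ ρ hρ hT hF
    have hne : R.Nonempty := by
      rw [← Finset.card_pos, hR]; omega
    set s := R.min' hne with hs
    have hfix : ∀ (g : G) (f : X →₀ ℤ), ∀ x < s, ρ g f x = f x := by
      intro g f x hx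
      refine hF g f x (fun hmem => ?_)
      exact absurd (R.min'_le x hmem) (not_le.2 hx)
    -- the homomorphism given by the coordinate `s`
    let P : (X →₀ ℤ) → G →* Multiplicative ℤ := fun f =>
      { toFun := fun g => Multiplicative.ofAdd (ρ g f s - f s)
        map_one' := by simp
        map_mul' := fun a b => by
          rw [← ofAdd_add, map_mul, Equiv.Perm.mul_apply]
          congr 1
          have := hT a (ρ b f) f s (hfix b f)
          omega }
    have hcomm : ∀ (c : commutator G) (f : X →₀ ℤ), ρ c f s = f s := by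
      intro c f
      have h1 : (c : G) ∈ (P f).ker := Abelianization.commutator_subset_ker (P f) c.2
      rw [MonoidHom.mem_ker] at h1
      have h2 : ρ c f s - f s = 0 := h1
      omega
    refine Am.of_commutator (ih (R.erase s) ?_ (commutator G) (ρ.comp (commutator G).subtype) ?_ ?_ ?_)
    · rw [Finset.card_erase_of_mem (R.min'_mem hne), hR]; rfl
    · exact hρ.comp (Subgroup.subtype_injective _)
    · intro g; exact hT g
    · intro g f x hx
      by_cases hxs : x = s
      · subst hxs; exact hcomm g f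
      · exact hF g f x (fun hmem => hx (Finset.mem_erase.2 ⟨hxs, hmem⟩))

/-- The group of finitary triangular permutations. -/
def UU (X : Type) [LinearOrder X] : Subgroup (Equiv.Perm (X →₀ ℤ)) where
  carrier := {φ | Tri φ ∧ ∃ R, FixOff R φ}
  one_mem' := ⟨Tri.one, ∅, fun f x _ => rfl⟩
  mul_mem' := by
    classical
    rintro φ ψ ⟨h1, R, h2⟩ ⟨h3, R', h4⟩
    refine ⟨h1.mul h3, R ∪ R', fun f x hx => ?_⟩
    rw [Finset.mem_union, not_or] at hx
    rw [Equiv.Perm.mul_apply, h2 _ x hx.1, h4 _ x hx.2]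
  inv_mem' := by
    rintro φ ⟨h1, R, h2⟩
    refine ⟨h1.inv, R, fun f x hx => ?_⟩
    have := h2 (φ⁻¹ f) x hx
    rw [← this]
    simp

theorem UU_am : Am (UU X) := by
  classical
  let K : Finset X → Subgroup (UU X) := fun R =>
    { carrier := {φ | FixOff R (φ : Equiv.Perm (X →₀ ℤ))}
      one_mem' := fun f x _ => rfl
      mul_mem' := by
        intro φ ψ h1 h2 f x hx
        show (φ : Equiv.Perm (X →₀ ℤ)) ((ψ : Equiv.Perm (X →₀ ℤ)) f) x = f x
        rw [h1 _ x hx, h2 _ x hx]
      inv_mem' := by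
        intro φ h1 f x hx
        have := h1 ((φ : Equiv.Perm (X →₀ ℤ))⁻¹ f) x hx
        show (φ : Equiv.Perm (X →₀ ℤ))⁻¹ f x = f x
        rw [← this]
        simp }
  refine Am.of_directed K ?_ ?_ ?_
  · intro R R' hR φ hφ f x hx
    exact hφ f x (fun hm => hx (hR hm))
  · rintro ⟨φ, h1, R, h2⟩
    exact ⟨R, h2⟩
  · intro R
    refine tri_am R.card R rfl (K R) ((UU X).subtype.comp (K R).subtype) ?_ ?_ ?_
    · exact (Subgroup.subtype_injective _).comp (Subgroup.subtype_injective _)
    · intro g; exact g.1.2.1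
    · intro g; exact g.2

end Pool.Agent.W861.AM
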